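import Mathlib
import Pool.Agent.Q280.QG.Stmts
import Pool.Agent.Q280.QG.Main
import Pool.Agent.Q280.QG.TaskCard
import Pool.Agent.Q280.QG.TaskStrict
import Pool.Agent.Q280.QG.TaskPos
import Pool.Agent.Q280.QG.TaskOuter
import Pool.Agent.Q280.QG.TaskInner
import Pool.Agent.Q280.QG.TaskH
import Pool.Agent.Q280.QG.TaskTri
import Pool.Agent.Q280.QG.TaskC
import Pool.Agent.Q280.QG.TaskRot
import Pool.Agent.Q280.QG.TaskQuad3
import Pool.Agent.Q280.QG.TaskQuad1
import Pool.Agent.Q280.QG.TaskSum
import Pool.Agent.Q280.QG.TaskMeas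
import Pool.Agent.Q280.QG.TaskInf
import Pool.Agent.Q280.QG.TaskInt

set_option autoImplicit false

open Pool.Agent.Q280.QG

namespace Pool.Agent.Results.MP_79dd7e_co.InfinitelyMany

/-- For every `n ≥ 4` there is a convex `(2n+1)`-gon with infinitely many quadrisections. -/
theorem result (n : ℕ) (hn : 4 ≤ n) :
    ∃ R : Set E, IsConvexGon (2 * n + 1) R ∧ (quadrisections R).Infinite :=
  Main.main TaskCard.main TaskStrict.main TaskPos.main TaskOuter.main TaskInner.main TaskH.main
    TaskTri.main TaskC.main TaskRot.main TaskQuad3.main TaskQuad1.main TaskSum.main TaskMeas.main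
    TaskInf.main (TaskInt.main TaskInner.main) n hn

end Pool.Agent.Results.MP_79dd7e_co.InfinitelyMany
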